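import Pool.Agent.H238.PH.Spec

/-!
# I2: the core estimate
-/

set_option autoImplicit false

namespace Pool.Agent.H106.PH

open MeasureTheory Set Filter Topology
open scoped ContDiff RealInnerProductSpace ComplexConjugate
open Pool.Agent.H238.PH

/-- the denominator is positive -/
theorem den_pos {p β : ℝ} {z y : ℂ} (hp : 1 < p) (h : 0 < β ^ 2 * ‖z‖ ^ 2 + ‖y‖ ^ 2) :
    0 < β ^ 2 * ‖z‖ ^ 2 + (p - 1) * ‖y‖ ^ 2 := by
  have h1 : 0 ≤ β ^ 2 * ‖z‖ ^ 2 := by positivity
  have h2 : 0 ≤ ‖y‖ ^ 2 := by positivity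
  have hp1 : 0 < p - 1 := by linarith
  rcases h2.lt_or_eq with h3 | h3
  · have := mul_pos hp1 h3
    linarith
  · rw [← h3] at h ⊢
    linarith

/-- the coefficient -/
noncomputable def rr (p β : ℝ) (z y : ℝ → ℂ) (t : ℝ) : ℝ :=
  KK p β * (conj (z t) * y t).re / (β ^ 2 * ‖z t‖ ^ 2 + (p - 1) * ‖y t‖ ^ 2)

theorem rr_cont {p β : ℝ} {z y : ℝ → ℂ} (hp : 1 < p) (hz : Continuous z) (hy : Continuous y)
    (hpos : ∀ t, 0 < β ^ 2 * ‖z t‖ ^ 2 + ‖y t‖ ^ 2) : Continuous (rr p β z y) := by
  unfold rr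
  refine Continuous.div ?_ ?_ fun t => (den_pos hp (hpos t)).ne'
  · exact continuous_const.mul
      (Complex.continuous_re.comp ((Complex.continuous_conj.comp hz).mul hy))
  · fun_prop

/-- the curve `y + i μ z` and its derivative -/
theorem curve_deriv {C μ : ℝ} {r : ℝ → ℝ} {z y : ℝ → ℂ} (hz : ∀ t, HasDerivAt z (y t) t)
    (hy : ∀ t, HasDerivAt y (-(C : ℂ) * z t + (r t : ℂ) * y t) t) (t : ℝ) :
    HasDerivAt (fun t => y t + Complex.I * (μ : ℂ) * z t)
      (-(C : ℂ) * z t + (r t : ℂ) * y t + Complex.I * (μ : ℂ) * y t) t :=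
  (hy t).add ((hz t).const_mul (Complex.I * (μ : ℂ)))

theorem curve_cont {C μ : ℝ} {r : ℝ → ℝ} {z y : ℝ → ℂ} (hz : Continuous z) (hy : Continuous y)
    (hr : Continuous r) :
    Continuous fun t => -(C : ℂ) * z t + (r t : ℂ) * y t + Complex.I * (μ : ℂ) * y t := by
  have := Complex.continuous_ofReal.comp hr
  fun_prop

/-- the sign of `m` is constant -/
theorem m_sign {C : ℝ} {r : ℝ → ℝ} {z y : ℝ → ℂ} (hr : Continuous r)
    (hz : ∀ t, HasDerivAt z (y t) t)
    (hy : ∀ t, HasDerivAt y (-(C : ℂ) * z t + (r t : ℂ) * y t) t) (t : ℝ) :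
    (conj (z t) * y t).im =
      (conj (z 0) * y 0).im * Real.exp (∫ s in (0 : ℝ)..t, r s) := by
  have hm : ∀ t, HasDerivAt (fun t => (conj (z t) * y t).im)
      (r t * (conj (z t) * y t).im) t := by
    intro t
    have h1 : HasDerivAt (fun t => conj (z t)) (conj (y t)) t := (hz t).star
    have h2 := (h1.mul (hy t))
    have h3 : HasDerivAt (fun t => (conj (z t) * y t).im)
        (Complex.imCLM (conj (y t) * y t + conj (z t) * (-(C : ℂ) * z t + (r t : ℂ) * y t))) t :=
      Complex.imCLM.hasFDerivAt.comp_hasDerivAt t h2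
    refine h3.congr_deriv ?_
    simp only [Complex.imCLM_apply, Complex.add_im, Complex.mul_im, Complex.add_re,
      Complex.mul_re, Complex.conj_re, Complex.conj_im, Complex.neg_re, Complex.neg_im,
      Complex.ofReal_re, Complex.ofReal_im]
    ring
  have hR : ∀ t, HasDerivAt (fun t => ∫ s in (0 : ℝ)..t, r s) (r t) t := fun t =>
    (hr.integral_hasStrictDerivAt 0 t).hasDerivAt
  have hc : ∀ t, HasDerivAt
      (fun t => (conj (z t) * y t).im * Real.exp (-∫ s in (0 : ℝ)..t, r s)) 0 t := by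
    intro t
    have h1 := (hm t).mul ((hR t).neg.exp)
    refine h1.congr_deriv ?_
    ring
  have h2 := is_const_of_deriv_eq_zero
    (f := fun t => (conj (z t) * y t).im * Real.exp (-∫ s in (0 : ℝ)..t, r s))
    (fun t => (hc t).differentiableAt) (fun t => (hc t).deriv) t 0
  simp only [intervalIntegral.integral_same, neg_zero, Real.exp_zero, mul_one] at h2
  rw [← h2, mul_assoc, ← Real.exp_add, neg_add_cancel, Real.exp_zero, mul_one]

theorem main_nonneg (hH : S_H) (hI1 : S_I1) (p β : ℝ) (z y : ℝ → ℂ) (hp : 1 < p) (hβ : 1 < β)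
    (hz : ∀ t, HasDerivAt z (y t) t)
    (hy : ∀ t, HasDerivAt y (-(CC p β : ℂ) * z t + (rr p β z y t : ℂ) * y t) t)
    (hz0 : z (2 * Real.pi) = z 0) (hy0 : y (2 * Real.pi) = y 0)
    (hpos : ∀ t, 0 < β ^ 2 * ‖z t‖ ^ 2 + ‖y t‖ ^ 2) (hm : ∀ t, 0 ≤ (conj (z t) * y t).im) :
    4 ≤ CC p β := by
  have hzc : Continuous z := continuous_iff_continuousAt.2 fun t => (hz t).continuousAt
  have hyc : Continuous y := continuous_iff_continuousAt.2 fun t => (hy t).continuousAt
  have hrc := rr_cont hp hzc hyc hpos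
  have hI := fun t => hI1 p β (z t) (y t) hp hβ (hpos t) (hm t) (CC p β) (KK p β)
    (β ^ 2 * ‖z t‖ ^ 2 + (p - 1) * ‖y t‖ ^ 2) ((conj (z t) * y t).re) rfl rfl rfl rfl
  have hper : ∀ μ : ℝ, y (2 * Real.pi) + Complex.I * (μ : ℂ) * z (2 * Real.pi) =
      y 0 + Complex.I * (μ : ℂ) * z 0 := by
    intro μ
    rw [hz0, hy0]
  obtain ⟨k, hk1, hk2⟩ := hH (fun t => y t + Complex.I * (β : ℂ) * z t)
    (fun t => -(CC p β : ℂ) * z t + (rr p β z y t : ℂ) * y t + Complex.I * (β : ℂ) * y t)
    (fun t => y t + Complex.I * (Real.sqrt (CC p β) : ℂ) * z t)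
    (fun t => -(CC p β : ℂ) * z t + (rr p β z y t : ℂ) * y t +
      Complex.I * (Real.sqrt (CC p β) : ℂ) * y t)
    (curve_deriv hz hy) (curve_cont hzc hyc hrc) (curve_deriv hz hy) (curve_cont hzc hyc hrc)
    (hper _) (hper _) (fun t => (hI t).2.2.2.2)
  have hpi := Real.pi_pos
  -- positivity of the norms
  have hn1 : ∀ t, 0 < ‖y t + Complex.I * (β : ℂ) * z t‖ ^ 2 := by
    intro t
    have h1 := (hI t).2.2.2.2
    have h2 : y t + Complex.I * (β : ℂ) * z t ≠ 0 := by
      intro h
      rw [h, zero_mul, Complex.zero_re] at h1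
      exact lt_irrefl _ h1
    have := norm_pos_iff.2 h2
    positivity
  have hn2 : ∀ t, 0 < ‖y t + Complex.I * (Real.sqrt (CC p β) : ℂ) * z t‖ ^ 2 := by
    intro t
    have h1 := (hI t).2.2.2.2
    have h2 : y t + Complex.I * (Real.sqrt (CC p β) : ℂ) * z t ≠ 0 := by
      intro h
      rw [h, map_zero, mul_zero, Complex.zero_re] at h1
      exact lt_irrefl _ h1
    have := norm_pos_iff.2 h2
    positivity
  -- continuity of the integrands
  have hcont : ∀ μ : ℝ, (∀ t, 0 < ‖y t + Complex.I * (μ : ℂ) * z t‖ ^ 2) → Continuous fun t =>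
      ((-(CC p β : ℂ) * z t + (rr p β z y t : ℂ) * y t + Complex.I * (μ : ℂ) * y t) *
        conj (y t + Complex.I * (μ : ℂ) * z t)).im / ‖y t + Complex.I * (μ : ℂ) * z t‖ ^ 2 := by
    intro μ hμ
    have h1 := curve_cont (C := CC p β) (μ := μ) hzc hyc hrc
    have h2 : Continuous fun t => y t + Complex.I * (μ : ℂ) * z t := by fun_prop
    exact (Complex.continuous_im.comp (h1.mul (Complex.continuous_conj.comp h2))).div
      ((continuous_norm.comp h2).pow 2) fun t => (hμ t).ne'
  have hc1 := hcont β hn1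
  have hc2 := hcont (Real.sqrt (CC p β)) hn2
  -- lower bound
  have hlow : 2 * Real.pi < 2 * Real.pi * k := by
    have h1 : 0 < ∫ t in (0 : ℝ)..(2 * Real.pi),
        (((-(CC p β : ℂ) * z t + (rr p β z y t : ℂ) * y t + Complex.I * (β : ℂ) * y t) *
        conj (y t + Complex.I * (β : ℂ) * z t)).im / ‖y t + Complex.I * (β : ℂ) * z t‖ ^ 2 - 1) := by
      refine intervalIntegral.intervalIntegral_pos_of_pos
        ((hc1.sub continuous_const).intervalIntegrable _ _) (fun t => ?_) (by positivity)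
      have h2 := (hI t).2.2.2.1
      have h3 : 1 < ((-(CC p β : ℂ) * z t + (rr p β z y t : ℂ) * y t +
          Complex.I * (β : ℂ) * y t) *
          conj (y t + Complex.I * (β : ℂ) * z t)).im / ‖y t + Complex.I * (β : ℂ) * z t‖ ^ 2 := by
        rw [one_lt_div (hn1 t)]
        exact h2
      linarith
    rw [intervalIntegral.integral_sub (hc1.intervalIntegrable _ _)
      (continuous_const.intervalIntegrable _ _), hk1, intervalIntegral.integral_const] at h1
    simp only [smul_eq_mul, mul_one, sub_zero] at h1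
    linarith
  -- upper bound
  have hup : 2 * Real.pi * k ≤ 2 * Real.pi * Real.sqrt (CC p β) := by
    rw [← hk2]
    have h1 : ∫ t in (0 : ℝ)..(2 * Real.pi), Real.sqrt (CC p β) =
        2 * Real.pi * Real.sqrt (CC p β) := by
      rw [intervalIntegral.integral_const, sub_zero, smul_eq_mul]
    rw [← h1]
    refine intervalIntegral.integral_mono_on (by positivity) (hc2.intervalIntegrable _ _)
      (continuous_const.intervalIntegrable _ _) fun t _ => ?_
    rw [div_le_iff₀ (hn2 t)]
    exact (hI t).2.2.1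
  have hk : (2 : ℤ) ≤ k := by
    have h1 : (1 : ℝ) < k := by
      by_contra hcon
      push Not at hcon
      have := mul_le_mul_of_nonneg_left hcon (by positivity : (0 : ℝ) ≤ 2 * Real.pi)
      linarith
    have h2 : (1 : ℤ) < k := by exact_mod_cast h1
    omega
  have hk' : (2 : ℝ) ≤ k := by exact_mod_cast hk
  have hs : (2 : ℝ) ≤ Real.sqrt (CC p β) := by
    have h1 : (k : ℝ) ≤ Real.sqrt (CC p β) :=
      le_of_mul_le_mul_left hup (by positivity)
    linarith
  have hC : 0 < CC p β := (hI 0).1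
  have h4 : (2 : ℝ) ^ 2 ≤ Real.sqrt (CC p β) ^ 2 := pow_le_pow_left₀ (by norm_num) hs 2
  rw [Real.sq_sqrt hC.le] at h4
  linarith

theorem t_I2 (hH : S_H) (hI1 : S_I1) : S_I2 := by
  intro p β z y hp hβ hz hy hz0 hy0 hpos
  have hy' : ∀ t, HasDerivAt y (-(CC p β : ℂ) * z t + (rr p β z y t : ℂ) * y t) t := hy
  have hzc : Continuous z := continuous_iff_continuousAt.2 fun t => (hz t).continuousAt
  have hyc : Continuous y := continuous_iff_continuousAt.2 fun t => (hy t).continuousAt
  have hrc := rr_cont hp hzc hyc hpos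
  have hms := m_sign hrc hz hy'
  rcases le_total 0 (conj (z 0) * y 0).im with h0 | h0
  · refine main_nonneg hH hI1 p β z y hp hβ hz hy' hz0 hy0 hpos fun t => ?_
    rw [hms t]
    exact mul_nonneg h0 (Real.exp_pos _).le
  · have hrr : ∀ t, rr p β (fun t => conj (z t)) (fun t => conj (y t)) t = rr p β z y t := by
      intro t
      unfold rr
      have h1 : (conj (conj (z t)) * conj (y t)).re = (conj (z t) * y t).re := by
        simp only [Complex.mul_re, Complex.conj_re, Complex.conj_im]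
        ring
      rw [h1, RCLike.norm_conj, RCLike.norm_conj]
    refine main_nonneg hH hI1 p β (fun t => conj (z t)) (fun t => conj (y t)) hp hβ
      (fun t => (hz t).star) (fun t => ?_) ?_ ?_ (fun t => ?_) fun t => ?_
    · rw [hrr t]
      refine ((hy' t).star).congr_deriv ?_
      show conj (-(CC p β : ℂ) * z t + (rr p β z y t : ℂ) * y t) = _
      rw [map_add, map_mul, map_mul, map_neg, Complex.conj_ofReal, Complex.conj_ofReal]
    · show conj (z (2 * Real.pi)) = conj (z 0)
      rw [hz0]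
    · show conj (y (2 * Real.pi)) = conj (y 0)
      rw [hy0]
    · rw [RCLike.norm_conj, RCLike.norm_conj]
      exact hpos t
    · have h1 : (conj (conj (z t)) * conj (y t)).im = -(conj (z t) * y t).im := by
        simp only [Complex.mul_im, Complex.conj_re, Complex.conj_im]
        ring
      rw [h1, hms t]
      have := mul_nonpos_of_nonpos_of_nonneg h0
        (Real.exp_pos (∫ s in (0 : ℝ)..t, rr p β z y s)).le
      linarith

end Pool.Agent.H106.PH
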